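import Pool.Agent.H441R4.EH.Fin3

/-!
The Elliott-Halberstam bound for fixed integer residues at every level `θ < 1`, on average over an
arbitrary set of at least `x^(2θ-1) (log x)^B` integers; the number of exceptional integers.

The characters of conductor at most `√x / (log x)^b` are treated in the maximum norm
(Bombieri-Vinogradov), those of larger conductor by the large sieve, in mean square over the
residues; a set of integers of size at most `x^k` has few pairs that are congruent modulo `q`.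
-/

set_option autoImplicit false

namespace Pool.Agent.Results.MP_a78e8f_nt.IntegerResiduesAllLevels

open Finset

/-- `π(y; q, a)`: the number of primes `p ≤ y` with `p ≡ a (mod q)`, for an integer `a` -/
def primePiAP (y q : ℕ) (a : ℤ) : ℕ :=
  ((Icc 1 y).filter (fun p : ℕ => p.Prime ∧ (p : ℤ) ≡ a [ZMOD q])).card

/-- `π(y)`: the number of primes `p ≤ y` -/
def primePi (y : ℕ) : ℕ := ((Icc 1 y).filter (fun p : ℕ => p.Prime)).card

/-- the maximum over the integers `0 ≤ y ≤ x` of `|π(y; q, a) - π(y)/φ(q)|` -/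
noncomputable def maxErr (x q : ℕ) (a : ℤ) : ℝ :=
  (range (x + 1)).sup' nonempty_range_add_one
    (fun y => |(primePiAP y q a : ℝ) - (primePi y : ℝ) / (Nat.totient q : ℝ)|)

/-- the sum of `max_{y ≤ x} |π(y; q, a) - π(y)/φ(q)|` over the moduli `q ≤ Q` coprime to `a` -/
noncomputable def T (x Q : ℕ) (a : ℤ) : ℝ :=
  ∑ q ∈ (Icc 1 Q).filter (fun q : ℕ => Int.gcd a q = 1), maxErr x q a

lemma maxErr_attained (x q : ℕ) (a : ℤ) :
    ∃ y, y ≤ x ∧ maxErr x q a = Pool.Agent.H441R4.EH.dZ y q a := by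
  obtain ⟨y, hy, h⟩ := exists_mem_eq_sup' (nonempty_range_add_one (n := x))
    (fun y => |(primePiAP y q a : ℝ) - (primePi y : ℝ) / (Nat.totient q : ℝ)|)
  exact ⟨y, Nat.lt_succ_iff.1 (mem_range.1 hy), h⟩

lemma T_nonneg (x Q : ℕ) (a : ℤ) : 0 ≤ T x Q a := by
  unfold T
  apply sum_nonneg
  intro q _
  obtain ⟨y, _, h⟩ := maxErr_attained x q a
  rw [h]
  exact abs_nonneg _

theorem mean (ε : ℝ) (hε : 0 < ε) (k U : ℕ) : ∃ (B : ℕ) (C : ℝ), 0 ≤ C ∧ ∀ x : ℕ, 2 < x →
    ∀ Q : ℕ, (Q : ℝ) ≤ (x : ℝ) ^ (1 - ε) → ∀ S : Finset ℤ, (∀ a ∈ S, |(a : ℝ)| ≤ (x : ℝ) ^ k) →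
    ∑ a ∈ S, T x Q a ≤ C * (S.card * (x / Real.log x ^ U) +
      Real.sqrt S.card * (Q * Real.sqrt x * Real.log x ^ B)) := by
  obtain ⟨B, C, hC, h⟩ := Pool.Agent.H441R4.EH.final2 ε hε k U
  refine ⟨B, C, hC, fun x hx Q hQ S hS => ?_⟩
  choose y hy using fun (a : ℤ) (q : ℕ) => maxErr_attained x q a
  refine le_trans (le_of_eq ?_) (h x hx Q hQ S hS y (fun a q => (hy a q).1))
  apply sum_congr rfl
  intro a _
  unfold T
  apply sum_congr rfl
  intro q _
  exact (hy a q).2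

/-- **Elliott-Halberstam for integer residues, all levels below `1`.** -/
theorem result (ε : ℝ) (hε : 0 < ε) (k : ℕ) (A : ℝ) :
    (∃ B C : ℝ, ∀ x : ℕ, 2 < x → ∀ Q : ℕ, (Q : ℝ) ≤ (x : ℝ) ^ (1 - ε) →
      ∀ S : Finset ℤ, (∀ a ∈ S, |(a : ℝ)| ≤ (x : ℝ) ^ k) →
      ∑ a ∈ S, T x Q a ≤ C * (S.card * (x / Real.log x ^ A) +
        Real.sqrt S.card * (Q * Real.sqrt x * Real.log x ^ B))) ∧
    (∃ B C : ℝ, ∀ x : ℕ, 2 < x → ∀ Q : ℕ, (Q : ℝ) ≤ (x : ℝ) ^ (1 - ε) →
      (((Icc (-(x : ℤ) ^ k) ((x : ℤ) ^ k)).filter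
        (fun a : ℤ => x / Real.log x ^ A < T x Q a)).card : ℝ) ≤
        C * ((Q : ℝ) ^ 2 / x) * Real.log x ^ B) := by
  classical
  constructor
  · obtain ⟨B, C, hC, h⟩ := mean ε hε k ⌈A⌉₊
    refine ⟨B, C, fun x hx Q hQ S hS => ?_⟩
    have hlog : 1 ≤ Real.log x := Pool.Agent.H441R3.BV.one_le_log hx
    have hlog0 : 0 < Real.log x := by linarith
    have h4 : Real.log x ^ A ≤ Real.log x ^ ⌈A⌉₊ := by
      rw [← Real.rpow_natCast]
      exact Real.rpow_le_rpow_of_exponent_le hlog (Nat.le_ceil A)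
    have h5 : 0 < Real.log x ^ A := Real.rpow_pos_of_pos hlog0 A
    have h6 : (x : ℝ) / Real.log x ^ ⌈A⌉₊ ≤ x / Real.log x ^ A :=
      div_le_div_of_nonneg_left (Nat.cast_nonneg _) h5 h4
    refine (h x hx Q hQ S hS).trans ?_
    rw [Real.rpow_natCast]
    gcongr
  · obtain ⟨B, C, hC, h⟩ := mean ε hε k (⌈A⌉₊ + 1)
    set U := ⌈A⌉₊ with hU
    -- `log x ≥ 2 C` for `x ≥ x1`
    obtain ⟨x1, hx1⟩ : ∃ x1 : ℕ, ∀ x : ℕ, x1 ≤ x → 2 * C ≤ Real.log x := by
      have := (Real.tendsto_log_atTop.comp (tendsto_natCast_atTop_atTop (R := ℝ))).eventually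
        (Filter.eventually_ge_atTop (2 * C))
      exact Filter.eventually_atTop.1 this
    refine ⟨(2 * (U + B) : ℕ), 4 * C ^ 2 + (2 * (x1 : ℝ) ^ k + 1) * x1, fun x hx Q hQ => ?_⟩
    have hlog : 1 ≤ Real.log x := Pool.Agent.H441R3.BV.one_le_log hx
    have hlog0 : 0 < Real.log x := by linarith
    have hx0 : (0 : ℝ) < x := by
      have : 0 < x := by omega
      exact_mod_cast this
    rw [Real.rpow_natCast]
    set Λ := Real.log x with hΛ
    set S := (Icc (-(x : ℤ) ^ k) ((x : ℤ) ^ k)).filter (fun a : ℤ => x / Λ ^ A < T x Q a) with hS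
    have hmem : ∀ a ∈ S, |(a : ℝ)| ≤ (x : ℝ) ^ k ∧ x / Λ ^ A < T x Q a := by
      intro a ha
      rw [hS, mem_filter, mem_Icc] at ha
      refine ⟨?_, ha.2⟩
      rw [abs_le]
      constructor
      · exact_mod_cast ha.1.1
      · exact_mod_cast ha.1.2
    have hAU : Λ ^ A ≤ Λ ^ U := by
      rw [← Real.rpow_natCast]
      exact Real.rpow_le_rpow_of_exponent_le hlog (Nat.le_ceil A)
    have hA0 : 0 < Λ ^ A := Real.rpow_pos_of_pos hlog0 A
    have hpow1 : (1 : ℝ) ≤ Λ ^ (2 * (U + B)) := one_le_pow₀ hlog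
    rcases S.eq_empty_or_nonempty with he | hne
    · rw [he, card_empty, Nat.cast_zero]
      positivity
    · have hQ1 : 1 ≤ Q := by
        obtain ⟨a, ha⟩ := hne
        by_contra hcon
        have hQ0 : Q = 0 := by omega
        have h1 := (hmem a ha).2
        rw [hQ0] at h1
        have h2 : T x 0 a = 0 := by unfold T; simp
        rw [h2] at h1
        have : 0 < (x : ℝ) / Λ ^ A := by positivity
        linarith
      have hQr : (1 : ℝ) ≤ Q := by exact_mod_cast hQ1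
      rcases Nat.lt_or_ge x x1 with hlt | hge
      · have hxx : (x : ℝ) ≤ x1 := by exact_mod_cast hlt.le
        have h1 : (S.card : ℝ) ≤ 2 * (x1 : ℝ) ^ k + 1 := by
          have h2 : S.card ≤ (Icc (-(x : ℤ) ^ k) ((x : ℤ) ^ k)).card := by
            rw [hS]; exact card_filter_le _ _
          rw [Int.card_Icc] at h2
          have h3 : ((((x : ℤ) ^ k + 1 - -(x : ℤ) ^ k).toNat : ℕ) : ℤ) = 2 * (x : ℤ) ^ k + 1 := by
            have h3 : 0 ≤ (x : ℤ) ^ k := by positivity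
            rw [Int.toNat_of_nonneg (by linarith)]
            ring
          have h4 : (S.card : ℤ) ≤ 2 * (x : ℤ) ^ k + 1 := by
            rw [← h3]; exact_mod_cast h2
          have h5 : (S.card : ℝ) ≤ 2 * (x : ℝ) ^ k + 1 := by exact_mod_cast h4
          have h6 : (x : ℝ) ^ k ≤ (x1 : ℝ) ^ k := pow_le_pow_left₀ hx0.le hxx k
          linarith
        have h2 : 1 ≤ (x1 : ℝ) * ((Q : ℝ) ^ 2 / x) := by
          rw [mul_div_assoc', le_div_iff₀ hx0, one_mul]
          have h3 : (1 : ℝ) ≤ (Q : ℝ) ^ 2 := one_le_pow₀ hQr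
          calc (x : ℝ) ≤ x1 * 1 := by rw [mul_one]; exact hxx
            _ ≤ x1 * (Q : ℝ) ^ 2 := by gcongr
        have h3 : 0 ≤ (Q : ℝ) ^ 2 / x := by positivity
        have h4 : 0 ≤ 4 * C ^ 2 * ((Q : ℝ) ^ 2 / x) * Λ ^ (2 * (U + B)) := by positivity
        calc (S.card : ℝ) ≤ (2 * (x1 : ℝ) ^ k + 1) * 1 * 1 := by rw [mul_one, mul_one]; exact h1
          _ ≤ (2 * (x1 : ℝ) ^ k + 1) * (x1 * ((Q : ℝ) ^ 2 / x)) * Λ ^ (2 * (U + B)) := by gcongr
          _ ≤ (4 * C ^ 2 + (2 * (x1 : ℝ) ^ k + 1) * x1) * ((Q : ℝ) ^ 2 / x) *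
              Λ ^ (2 * (U + B)) := by
              have e : (4 * C ^ 2 + (2 * (x1 : ℝ) ^ k + 1) * x1) * ((Q : ℝ) ^ 2 / x) *
                Λ ^ (2 * (U + B)) = 4 * C ^ 2 * ((Q : ℝ) ^ 2 / x) * Λ ^ (2 * (U + B)) +
                (2 * (x1 : ℝ) ^ k + 1) * (x1 * ((Q : ℝ) ^ 2 / x)) * Λ ^ (2 * (U + B)) := by ring
              rw [e]
              linarith
      · have hC2 := hx1 x hge
        rw [← hΛ] at hC2
        have h1 := h x hx Q hQ S (fun a ha => (hmem a ha).1)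
        rw [← hΛ] at h1
        set K : ℝ := (S.card : ℝ) with hK
        have hK0 : 0 < K := by
          rw [hK]
          exact_mod_cast card_pos.2 hne
        have h2 : K * (x / Λ ^ U) ≤ ∑ a ∈ S, T x Q a := by
          calc K * (x / Λ ^ U) = ∑ _a ∈ S, (x : ℝ) / Λ ^ U := by rw [sum_const, nsmul_eq_mul]
            _ ≤ ∑ a ∈ S, T x Q a := by
                apply sum_le_sum
                intro a ha
                refine le_trans ?_ (hmem a ha).2.le
                exact div_le_div_of_nonneg_left hx0.le hA0 hAU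
        have h3 : C * (K * (x / Λ ^ (U + 1))) ≤ K * (x / Λ ^ U) / 2 := by
          have e : K * (x / Λ ^ U) / 2 = (Λ / 2) * (K * (x / Λ ^ (U + 1))) := by
            rw [pow_succ]; field_simp
          rw [e]
          apply mul_le_mul_of_nonneg_right _ (by positivity)
          linarith
        have h4 : K * (x / Λ ^ U) ≤ 2 * C * (Real.sqrt K * (Q * Real.sqrt x * Λ ^ B)) := by
          have e : C * (K * (x / Λ ^ (U + 1)) + Real.sqrt K * (Q * Real.sqrt x * Λ ^ B)) =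
              C * (K * (x / Λ ^ (U + 1))) + C * (Real.sqrt K * (Q * Real.sqrt x * Λ ^ B)) := by ring
          rw [e] at h1
          linarith
        -- divide by `√K √x`
        have s1 : Real.sqrt K ^ 2 = K := Real.sq_sqrt hK0.le
        have s2 : Real.sqrt x ^ 2 = x := Real.sq_sqrt hx0.le
        have s3 : 0 < Real.sqrt K := Real.sqrt_pos.2 hK0
        have s4 : 0 < Real.sqrt x := Real.sqrt_pos.2 hx0
        have h5 : Real.sqrt K * Real.sqrt x ≤ 2 * C * Q * Λ ^ (U + B) := by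
          have e1 : K * (x / Λ ^ U) = (Real.sqrt K * Real.sqrt x) *
              (Real.sqrt K * Real.sqrt x) / Λ ^ U := by
            rw [mul_mul_mul_comm, ← sq, ← sq, s1, s2]
            ring
          have e2 : 2 * C * (Real.sqrt K * (Q * Real.sqrt x * Λ ^ B)) =
              (Real.sqrt K * Real.sqrt x) * (2 * C * Q * Λ ^ B) := by ring
          rw [e1, e2, div_le_iff₀ (by positivity), mul_assoc (Real.sqrt K * Real.sqrt x)] at h4
          have h6 := le_of_mul_le_mul_left h4 (by positivity)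
          refine h6.trans (le_of_eq ?_)
          rw [pow_add]
          ring
        have h6 : (Real.sqrt K * Real.sqrt x) ^ 2 ≤ (2 * C * Q * Λ ^ (U + B)) ^ 2 :=
          pow_le_pow_left₀ (by positivity) h5 2
        have h7 : K ≤ 4 * C ^ 2 * ((Q : ℝ) ^ 2 / x) * Λ ^ (2 * (U + B)) := by
          rw [mul_pow, s1, s2] at h6
          have e3 : 4 * C ^ 2 * ((Q : ℝ) ^ 2 / x) * Λ ^ (2 * (U + B)) =
              (2 * C * Q * Λ ^ (U + B)) ^ 2 / x := by ring
          rw [e3, le_div_iff₀ hx0]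
          exact h6
        have h8 : 0 ≤ (2 * (x1 : ℝ) ^ k + 1) * x1 * ((Q : ℝ) ^ 2 / x) * Λ ^ (2 * (U + B)) := by
          positivity
        have e : (4 * C ^ 2 + (2 * (x1 : ℝ) ^ k + 1) * x1) * ((Q : ℝ) ^ 2 / x) *
            Λ ^ (2 * (U + B)) = 4 * C ^ 2 * ((Q : ℝ) ^ 2 / x) * Λ ^ (2 * (U + B)) +
            (2 * (x1 : ℝ) ^ k + 1) * x1 * ((Q : ℝ) ^ 2 / x) * Λ ^ (2 * (U + B)) := by ring
        rw [e]
        linarith

end Pool.Agent.Results.MP_a78e8f_nt.IntegerResiduesAllLevels
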