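import Pool.Agent.H582EH.Bound

/-!
Primes (and all sets of primes) along divisor chains of moduli up to `x / log x`: all but boundedly
many steps of every chain are regular.
-/

set_option autoImplicit false

namespace Pool.Agent.Results.MP_a78e8f_nt.DivisorChains

open Finset

/-- the reduced residues modulo `q` -/
def reduced (q : ℕ) : Finset ℕ := (range q).filter (fun b => Nat.Coprime b q)

/-- the number of elements of `S` congruent to `b` modulo `q` -/
def count (S : Finset ℕ) (q b : ℕ) : ℕ := (S.filter (fun n => n ≡ b [MOD q])).card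

/-- the primes up to `x` -/
def primesUpTo (x : ℕ) : Finset ℕ := (Icc 1 x).filter Nat.Prime

/-- the deviation of the class `b` modulo `r` from its share of the class of `b` modulo `q` -/
noncomputable def dev (S : Finset ℕ) (q r b : ℕ) : ℝ :=
  (count S r b : ℝ) - (Nat.totient q : ℝ) / (Nat.totient r : ℝ) * count S q b

/-- the `L^1` deviation -/
noncomputable def L1 (S : Finset ℕ) (q r : ℕ) : ℝ := ∑ b ∈ reduced r, |dev S q r b|

/-- the `L^2` deviation, normalised by `φ(r)` -/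
noncomputable def L2 (S : Finset ℕ) (q r : ℕ) : ℝ :=
  (Nat.totient r : ℝ) * ∑ b ∈ reduced r, dev S q r b ^ 2

lemma L2_eq (S : Finset ℕ) (q r : ℕ) :
    L2 S q r = (Nat.totient r : ℝ) * Pool.Agent.H582EH.Disc S q r := rfl

lemma L1_sq_le (S : Finset ℕ) (q r : ℕ) : L1 S q r ^ 2 ≤ L2 S q r := by
  unfold L1 L2
  have h := Finset.sum_mul_sq_le_sq_mul_sq (reduced r) (fun _ => (1 : ℝ)) (fun b => |dev S q r b|)
  have hcard : (((reduced r).card : ℕ) : ℝ) = Nat.totient r := by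
    exact_mod_cast Pool.Agent.H582EH.card_red r
  simp only [one_mul, one_pow, sum_const, nsmul_eq_mul, mul_one, sq_abs] at h
  rw [hcard] at h
  exact h

lemma chain_dvd (q : ℕ → ℕ) (N : ℕ) (hq : ∀ i < N, q i ∣ q (i + 1)) :
    ∀ i j, i ≤ j → j ≤ N → q i ∣ q j := by
  intro i j hij
  induction j, hij using Nat.le_induction with
  | base => intro _; exact dvd_rfl
  | succ j _ ih => intro hj; exact (ih (by omega)).trans (hq j (by omega))

theorem part1 : ∃ C : ℝ, 0 < C ∧ ∀ x : ℕ, 2 ≤ x → ∀ S : Finset ℕ, S ⊆ primesUpTo x →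
    ∀ (q : ℕ → ℕ) (J k : ℕ), (∀ i < J + k, q i ∣ q (i + 1)) → 0 < q (J + k) →
    q (J + k) * Real.log x ≤ x → (∀ p ∈ S, ¬ p ∣ q (J + k)) →
    ∑ i ∈ range (J + 1), L2 S (q i) (q (i + k)) ≤
      C * k * (q (J + k) / Nat.totient (q (J + k))) * (x / Real.log x) ^ 2 := by
  obtain ⟨C, hC, hE⟩ := Pool.Agent.H582EH.energy_bound
  refine ⟨C, hC, ?_⟩
  intro x hx S hS q J k hq hpos hqx hdiv
  have hdv := chain_dvd q (J + k) hq
  have hcop : ∀ i ≤ J + k, ∀ n ∈ S, Nat.Coprime n (q i) := by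
    intro i hi n hn
    have hnp : n.Prime := (Finset.mem_filter.1 (hS hn)).2
    have h1 : Nat.Coprime n (q (J + k)) := (Nat.Prime.coprime_iff_not_dvd hnp).2 (hdiv n hn)
    exact h1.coprime_dvd_right (hdv i (J + k) hi le_rfl)
  have hp : ∀ i ≤ J + k, 0 < q i := fun i hi =>
    Nat.pos_of_dvd_of_pos (hdv i (J + k) hi le_rfl) hpos
  have hSP : S ⊆ Pool.Agent.H357R2.SI.PZ x := by
    intro p hp
    have h1 := Finset.mem_filter.1 (hS hp)
    exact Pool.Agent.H357R2.SI.mem_PZ.2 ⟨h1.2, (Finset.mem_Icc.1 h1.1).2⟩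
  have hM : ∀ j < J + 1 + k, Pool.Agent.H582EH.En S (q j) ≤
      C * (q (J + k) / Nat.totient (q (J + k))) * (x / Real.log x) ^ 2 := by
    intro j hj
    refine (Pool.Agent.H582EH.En_mono S (q j) (q (J + k)) hpos (hdv j (J + k) (by omega) le_rfl)
      (hcop _ le_rfl)).trans ?_
    exact hE x hx (q (J + k)) hpos hqx S hSP
  have ht := Pool.Agent.H582EH.tele (fun j => Pool.Agent.H582EH.En S (q j))
    (fun j => Pool.Agent.H582EH.En_nonneg S (q j)) k (J + 1) _ hM
  calc ∑ i ∈ range (J + 1), L2 S (q i) (q (i + k))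
      = ∑ i ∈ range (J + 1), (Pool.Agent.H582EH.En S (q (i + k)) - Pool.Agent.H582EH.En S (q i)) := by
        apply Finset.sum_congr rfl
        intro i hi
        have hi' := Finset.mem_range.1 hi
        rw [L2_eq]
        exact Pool.Agent.H582EH.energy_identity S (q i) (q (i + k)) (hp _ (by omega))
          (hdv i (i + k) (by omega) (by omega)) (hcop _ (by omega))
    _ ≤ k * (C * (q (J + k) / Nat.totient (q (J + k))) * (x / Real.log x) ^ 2) := ht
    _ = _ := by ring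

theorem part2 (C : ℝ) (hC0 : 0 < C) (hC : ∀ x : ℕ, 2 ≤ x → ∀ S : Finset ℕ, S ⊆ primesUpTo x →
    ∀ (q : ℕ → ℕ) (J k : ℕ), (∀ i < J + k, q i ∣ q (i + 1)) → 0 < q (J + k) →
    q (J + k) * Real.log x ≤ x → (∀ p ∈ S, ¬ p ∣ q (J + k)) →
    ∑ i ∈ range (J + 1), L2 S (q i) (q (i + k)) ≤
      C * k * (q (J + k) / Nat.totient (q (J + k))) * (x / Real.log x) ^ 2)
    (x : ℕ) (hx : 2 ≤ x) (S : Finset ℕ) (hS : S ⊆ primesUpTo x)
    (q : ℕ → ℕ) (J : ℕ) (hq : ∀ i < J, q i ∣ q (i + 1)) (hpos : 0 < q J)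
    (hqx : q J * Real.log x ≤ x) (hdiv : ∀ p ∈ S, ¬ p ∣ q J) (δ : ℝ) (hδ : 0 < δ) :
    (((range J).filter (fun i => δ * (x / Real.log x) < L1 S (q i) (q (i + 1)))).card : ℝ) ≤
      C * (q J / Nat.totient (q J)) / δ ^ 2 := by
  classical
  have hx2 : (2 : ℝ) ≤ x := by exact_mod_cast hx
  have hlog : 0 < Real.log x := Real.log_pos (by linarith)
  have hA : 0 < (x : ℝ) / Real.log x := by positivity
  rcases Nat.eq_zero_or_pos J with h0 | hJ
  · subst h0
    simp only [range_zero, filter_empty, card_empty, Nat.cast_zero]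
    positivity
  · obtain ⟨J', rfl⟩ : ∃ J', J = J' + 1 := ⟨J - 1, by omega⟩
    have h1 := hC x hx S hS q J' 1 hq hpos hqx hdiv
    have h2 : ∑ i ∈ range (J' + 1), L1 S (q i) (q (i + 1)) ^ 2 ≤
        C * (q (J' + 1) / Nat.totient (q (J' + 1))) * (x / Real.log x) ^ 2 := by
      have h3 : ∑ i ∈ range (J' + 1), L1 S (q i) (q (i + 1)) ^ 2 ≤
          ∑ i ∈ range (J' + 1), L2 S (q i) (q (i + 1)) :=
        Finset.sum_le_sum (fun i _ => L1_sq_le S (q i) (q (i + 1)))
      refine h3.trans (h1.trans (le_of_eq ?_))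
      push_cast
      ring
    set T := (range (J' + 1)).filter (fun i => δ * (x / Real.log x) <
        L1 S (q i) (q (i + 1))) with hT
    have h4 : (T.card : ℝ) * (δ * (x / Real.log x)) ^ 2 ≤
        ∑ i ∈ range (J' + 1), L1 S (q i) (q (i + 1)) ^ 2 := by
      calc (T.card : ℝ) * (δ * (x / Real.log x)) ^ 2
          = ∑ _i ∈ T, (δ * (x / Real.log x)) ^ 2 := by rw [Finset.sum_const, nsmul_eq_mul]
        _ ≤ ∑ i ∈ T, L1 S (q i) (q (i + 1)) ^ 2 := by
            apply Finset.sum_le_sum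
            intro i hi
            exact pow_le_pow_left₀ (by positivity) (Finset.mem_filter.1 hi).2.le 2
        _ ≤ _ := Finset.sum_le_sum_of_subset_of_nonneg (Finset.filter_subset _ _)
            (fun _ _ _ => sq_nonneg _)
    rw [le_div_iff₀ (by positivity)]
    have h5 := h4.trans h2
    have h6 : 0 < ((x : ℝ) / Real.log x) ^ 2 := by positivity
    rw [mul_pow, ← mul_assoc] at h5
    exact le_of_mul_le_mul_right h5 h6

theorem part3 (C : ℝ) (hC0 : 0 < C) (hC : ∀ x : ℕ, 2 ≤ x → ∀ S : Finset ℕ, S ⊆ primesUpTo x →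
    ∀ (q : ℕ → ℕ) (J : ℕ), (∀ i < J, q i ∣ q (i + 1)) → 0 < q J →
    q J * Real.log x ≤ x → (∀ p ∈ S, ¬ p ∣ q J) → ∀ δ : ℝ, 0 < δ →
    (((range J).filter (fun i => δ * (x / Real.log x) < L1 S (q i) (q (i + 1)))).card : ℝ) ≤
      C * (q J / Nat.totient (q J)) / δ ^ 2)
    (x : ℕ) (hx : 2 ≤ x) (l : ℕ) (hl : l.Prime) (e : ℕ → ℕ) (J : ℕ) (he0 : 1 ≤ e 0)
    (he : ∀ i < J, e i ≤ e (i + 1)) (hlx : (l : ℝ) ^ e J * Real.log x ≤ x) (δ : ℝ) (hδ : 0 < δ) :
    (((range J).filter (fun i => δ * (x / Real.log x) <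
      ∑ b ∈ reduced (l ^ e (i + 1)), |(count (primesUpTo x) (l ^ e (i + 1)) b : ℝ) -
        (count (primesUpTo x) (l ^ e i) b : ℝ) / (l : ℝ) ^ (e (i + 1) - e i)|)).card : ℝ) ≤
      2 * C / δ ^ 2 := by
  classical
  have hmono : ∀ i j, i ≤ j → j ≤ J → e i ≤ e j := by
    intro i j hij
    induction j, hij using Nat.le_induction with
    | base => intro _; exact le_rfl
    | succ j _ ih => intro hj; exact (ih (by omega)).trans (he j (by omega))
  have hpos : ∀ i ≤ J, 1 ≤ e i := fun i hi => he0.trans (hmono 0 i (Nat.zero_le _) hi)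
  have hl0 : (0 : ℝ) < l := by exact_mod_cast hl.pos
  set S := (primesUpTo x).filter (fun p => p ≠ l) with hS
  have h := hC x hx S (Finset.filter_subset _ _) (fun i => l ^ e i) J
    (fun i hi => pow_dvd_pow l (he i hi)) (pow_pos hl.pos _) (by push_cast; exact hlx)
    (by
      intro p hp hpl
      have h1 := Finset.mem_filter.1 hp
      have h2 : p.Prime := (Finset.mem_filter.1 h1.1).2
      exact h1.2 ((Nat.prime_dvd_prime_iff_eq h2 hl).1 (h2.dvd_of_dvd_pow hpl))) δ hδ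
  have hcount : ∀ j k b : ℕ, 1 ≤ j → 1 ≤ k → Nat.Coprime b (l ^ k) →
      count (primesUpTo x) (l ^ j) b = count S (l ^ j) b := by
    intro j k b hj hk hb
    unfold count
    congr 1
    ext p
    rw [hS, Finset.mem_filter, Finset.mem_filter, Finset.mem_filter]
    constructor
    · rintro ⟨h1, h2⟩
      refine ⟨⟨h1, ?_⟩, h2⟩
      rintro rfl
      have h3 : p ∣ p ^ j := dvd_pow_self p (by omega)
      have h4 : p ≡ b [MOD p] := h2.of_dvd h3
      have h5 : p ∣ b := (Nat.modEq_zero_iff_dvd).1 (h4.symm.trans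
        ((Nat.modEq_zero_iff_dvd).2 dvd_rfl))
      have h6 : p ∣ p ^ k := dvd_pow_self p (by omega)
      have h7 := Nat.dvd_gcd h5 h6
      rw [hb] at h7
      exact hl.one_lt.ne' (Nat.dvd_one.1 h7)
    · rintro ⟨⟨h1, _⟩, h2⟩
      exact ⟨h1, h2⟩
  have htot : ∀ j : ℕ, 1 ≤ j → (Nat.totient (l ^ j) : ℝ) = (l : ℝ) ^ j * (1 - 1 / l) := by
    intro j hj
    rw [Nat.totient_prime_pow hl (by omega)]
    push_cast [Nat.cast_sub hl.one_lt.le]
    obtain ⟨j', rfl⟩ : ∃ j', j = j' + 1 := ⟨j - 1, by omega⟩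
    rw [Nat.add_sub_cancel, pow_succ]
    field_simp
  have hl2 : (2 : ℝ) ≤ l := by exact_mod_cast hl.two_le
  have hinv : (1 : ℝ) / l ≤ 1 / 2 := by
    apply one_div_le_one_div_of_le (by norm_num) hl2
  have hL : ∀ i < J, ∑ b ∈ reduced (l ^ e (i + 1)), |(count (primesUpTo x) (l ^ e (i + 1)) b : ℝ) -
        (count (primesUpTo x) (l ^ e i) b : ℝ) / (l : ℝ) ^ (e (i + 1) - e i)| =
        L1 S (l ^ e i) (l ^ e (i + 1)) := by
    intro i hi
    unfold L1 dev
    apply Finset.sum_congr rfl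
    intro b hb
    have hb' : Nat.Coprime b (l ^ e (i + 1)) := (Finset.mem_filter.1 hb).2
    rw [hcount (e (i + 1)) (e (i + 1)) b (hpos _ (by omega)) (hpos _ (by omega)) hb',
      hcount (e i) (e (i + 1)) b (hpos _ (by omega)) (hpos _ (by omega)) hb',
      htot _ (hpos i (by omega)), htot _ (hpos (i + 1) (by omega))]
    have h1 : (l : ℝ) ^ e (i + 1) = (l : ℝ) ^ e i * (l : ℝ) ^ (e (i + 1) - e i) := by
      rw [← pow_add, Nat.add_sub_cancel' (he i hi)]
    have h2 : (1 : ℝ) - 1 / l ≠ 0 := by linarith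
    have h3 : (l : ℝ) ^ e i * (1 - 1 / l) / ((l : ℝ) ^ e (i + 1) * (1 - 1 / l)) =
        1 / (l : ℝ) ^ (e (i + 1) - e i) := by
      rw [h1]
      have h4 : (l : ℝ) ^ e i ≠ 0 := by positivity
      have h5 : (l : ℝ) ^ (e (i + 1) - e i) ≠ 0 := by positivity
      rw [mul_div_mul_right _ _ h2]
      field_simp
    rw [h3]
    congr 1
    ring
  have hfil : (range J).filter (fun i => δ * (x / Real.log x) <
      ∑ b ∈ reduced (l ^ e (i + 1)), |(count (primesUpTo x) (l ^ e (i + 1)) b : ℝ) -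
        (count (primesUpTo x) (l ^ e i) b : ℝ) / (l : ℝ) ^ (e (i + 1) - e i)|) =
      (range J).filter (fun i => δ * (x / Real.log x) < L1 S (l ^ e i) (l ^ e (i + 1))) := by
    apply Finset.filter_congr
    intro i hi
    rw [hL i (Finset.mem_range.1 hi)]
  rw [hfil]
  refine h.trans ?_
  have hr : ((l ^ e J : ℕ) : ℝ) / Nat.totient (l ^ e J) ≤ 2 := by
    rw [htot _ (hpos J le_rfl)]
    push_cast
    have h4 : (0 : ℝ) < (l : ℝ) ^ e J := by positivity
    rw [div_le_iff₀ (by apply mul_pos h4; linarith)]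
    nlinarith
  have h7 : C * (((l ^ e J : ℕ) : ℝ) / Nat.totient (l ^ e J)) ≤ 2 * C := by nlinarith
  gcongr

/-- There is a constant `C` such that for all `x ≥ 2`:
(1) for every set `S` of primes up to `x` and all `q_0 ∣ q_1 ∣ ... ∣ q_(J+k)` with
`0 < q_(J+k) ≤ x / log x` not divisible by any element of `S`, the sum over `0 ≤ i ≤ J` of the
`L^2` deviations of the classes modulo `q_(i+k)` relative to those modulo `q_i` is at most
`C k (q_(J+k) / φ(q_(J+k))) (x / log x)^2`;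
(2) for `S` and `q_0 ∣ ... ∣ q_J` as before and every `δ > 0`, at most `C (q_J / φ(q_J)) / δ^2` of the
steps have an `L^1` deviation exceeding `δ x / log x`;
(3) for every prime `l`, all `1 ≤ e_0 ≤ ... ≤ e_J` with `l^(e_J) ≤ x / log x` and every `δ > 0`, at
most `C / δ^2` of the `i < J` satisfy
`∑_b |π(x; l^(e_(i+1)), b) - π(x; l^(e_i), b) / l^(e_(i+1) - e_i)| > δ x / log x`, the sum over the
reduced classes `b` modulo `l^(e_(i+1))`. -/
theorem result : ∃ C : ℝ, 0 < C ∧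
    (∀ x : ℕ, 2 ≤ x → ∀ S : Finset ℕ, S ⊆ primesUpTo x →
      ∀ (q : ℕ → ℕ) (J k : ℕ), (∀ i < J + k, q i ∣ q (i + 1)) → 0 < q (J + k) →
      q (J + k) * Real.log x ≤ x → (∀ p ∈ S, ¬ p ∣ q (J + k)) →
      ∑ i ∈ range (J + 1), L2 S (q i) (q (i + k)) ≤
        C * k * (q (J + k) / Nat.totient (q (J + k))) * (x / Real.log x) ^ 2) ∧
    (∀ x : ℕ, 2 ≤ x → ∀ S : Finset ℕ, S ⊆ primesUpTo x →
      ∀ (q : ℕ → ℕ) (J : ℕ), (∀ i < J, q i ∣ q (i + 1)) → 0 < q J →
      q J * Real.log x ≤ x → (∀ p ∈ S, ¬ p ∣ q J) → ∀ δ : ℝ, 0 < δ →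
      (((range J).filter (fun i => δ * (x / Real.log x) < L1 S (q i) (q (i + 1)))).card : ℝ) ≤
        C * (q J / Nat.totient (q J)) / δ ^ 2) ∧
    (∀ x : ℕ, 2 ≤ x → ∀ l : ℕ, l.Prime → ∀ (e : ℕ → ℕ) (J : ℕ), 1 ≤ e 0 →
      (∀ i < J, e i ≤ e (i + 1)) → (l : ℝ) ^ e J * Real.log x ≤ x → ∀ δ : ℝ, 0 < δ →
      (((range J).filter (fun i => δ * (x / Real.log x) <
        ∑ b ∈ reduced (l ^ e (i + 1)), |(count (primesUpTo x) (l ^ e (i + 1)) b : ℝ) -
          (count (primesUpTo x) (l ^ e i) b : ℝ) / (l : ℝ) ^ (e (i + 1) - e i)|)).card : ℝ) ≤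
        C / δ ^ 2) := by
  obtain ⟨C, hC0, hC⟩ := part1
  have h2 := part2 C hC0 hC
  have h3 := part3 C hC0 h2
  refine ⟨2 * C, by positivity, ?_, ?_, ?_⟩
  · intro x hx S hS q J k hq hpos hqx hdiv
    refine (hC x hx S hS q J k hq hpos hqx hdiv).trans ?_
    have h : 0 ≤ C * k * ((q (J + k) : ℝ) / Nat.totient (q (J + k))) * (x / Real.log x) ^ 2 := by
      positivity
    linarith [show 2 * C * k * ((q (J + k) : ℝ) / Nat.totient (q (J + k))) *
      (x / Real.log x) ^ 2 = 2 * (C * k * ((q (J + k) : ℝ) / Nat.totient (q (J + k))) *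
      (x / Real.log x) ^ 2) by ring]
  · intro x hx S hS q J hq hpos hqx hdiv δ hδ
    refine (h2 x hx S hS q J hq hpos hqx hdiv δ hδ).trans ?_
    have h : 0 ≤ C * ((q J : ℝ) / Nat.totient (q J)) / δ ^ 2 := by positivity
    linarith [show 2 * C * ((q J : ℝ) / Nat.totient (q J)) / δ ^ 2 =
      2 * (C * ((q J : ℝ) / Nat.totient (q J)) / δ ^ 2) by ring]
  · intro x hx l hl e J he0 he hlx δ hδ
    exact h3 x hx l hl e J he0 he hlx δ hδ

end Pool.Agent.Results.MP_a78e8f_nt.DivisorChains
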